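import Pool.Agent.Helper69.ST.Goals
import Pool.Agent.Helper36.CauchyN.Univ
import Pool.Agent.Helper32.CN.Univalent

/-! The equivariant Riemann map (packet CA of helper69's project ST): a simply connected domain with a rotational symmetry of
order `p ≥ 2` about `c` contains `c`, and its Riemann map normalised by `f 0 = 0` commutes with the rotation. -/

set_option autoImplicit false

open Complex Metric Set Filter Topology

namespace Pool.Agent.Helper72.ST.CA

open Pool.Agent.Helper36.CN (inv inv_apply inv_mem apply_inv deriv_ne_zero differentiableOn_inv)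

/-! ### The centre belongs to the domain -/

theorem zero_mem {g : ℂ → ℂ} {w : ℂ} {p : ℕ} (hg : DifferentiableOn ℂ g (ball 0 1))
    (hinj : InjOn g (ball 0 1)) (hp : 2 ≤ p) (hw : IsPrimitiveRoot w p)
    (hrot : ∀ v ∈ g '' ball 0 1, w * v ∈ g '' ball 0 1) : (0 : ℂ) ∈ g '' ball 0 1 := by
  by_contra h0
  have hne : ∀ z ∈ ball (0 : ℂ) 1, g z ≠ 0 := fun z hz h => h0 ⟨z, hz, h⟩
  obtain ⟨L, hL, hexp⟩ := Pool.Agent.Helper32.CN.exists_log hg hne
  obtain ⟨S, hS⟩ : ∃ S : ℂ → ℂ, S = fun z => inv g (w * g z) := ⟨_, rfl⟩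
  have hSm : ∀ z ∈ ball (0 : ℂ) 1, S z ∈ ball (0 : ℂ) 1 := fun z hz => by
    rw [hS]; exact inv_mem (hrot _ ⟨z, hz, rfl⟩)
  have hgS : ∀ z ∈ ball (0 : ℂ) 1, g (S z) = w * g z := fun z hz => by
    rw [hS]; exact apply_inv (hrot _ ⟨z, hz, rfl⟩)
  have hSd : DifferentiableOn ℂ S (ball 0 1) := by
    rw [hS]
    exact (differentiableOn_inv hg hinj).comp (hg.const_mul w) (fun z hz => hrot _ ⟨z, hz, rfl⟩)
  obtain ⟨D, hD⟩ : ∃ D : ℂ → ℂ, D = fun z => L (S z) - L z := ⟨_, rfl⟩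
  have hDd : DifferentiableOn ℂ D (ball 0 1) := by
    rw [hD]; exact (hL.comp hSd hSm).sub hL
  have hDe : ∀ z ∈ ball (0 : ℂ) 1, exp (D z) = w := by
    intro z hz
    rw [hD]
    change exp (L (S z) - L z) = w
    rw [exp_sub, hexp _ (hSm z hz), hexp _ hz, hgS z hz, mul_div_assoc, div_self (hne z hz), mul_one]
  have hder : EqOn (deriv D) 0 (ball 0 1) := by
    intro z hz
    have h1 : HasDerivAt D (deriv D z) z :=
      (hDd.differentiableAt (isOpen_ball.mem_nhds hz)).hasDerivAt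
    have h3 : HasDerivAt (fun z => exp (D z)) 0 z := by
      refine (hasDerivAt_const z w).congr_of_eventuallyEq ?_
      filter_upwards [isOpen_ball.mem_nhds hz] with y hy
      exact hDe y hy
    have h4 := h1.cexp.unique h3
    rcases mul_eq_zero.1 h4 with h | h
    · exact absurd h (exp_ne_zero _)
    · exact h
  have h00 : (0 : ℂ) ∈ ball (0 : ℂ) 1 := by simp
  have hconst : ∀ z ∈ ball (0 : ℂ) 1, L (S z) = L z + D 0 := by
    intro z hz
    have h1 : D z = D 0 := isOpen_ball.is_const_of_deriv_eq_zero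
      (convex_ball (0 : ℂ) 1).isPreconnected hDd hder hz h00
    rw [← h1, hD]
    ring
  have hit : ∀ n : ℕ, S^[n] 0 ∈ ball (0 : ℂ) 1 ∧ g (S^[n] 0) = w ^ n * g 0 ∧
      L (S^[n] 0) = L 0 + n * D 0 := by
    intro n
    induction n with
    | zero => simp
    | succ n ih =>
      obtain ⟨h1, h2, h3⟩ := ih
      rw [Function.iterate_succ_apply']
      refine ⟨hSm _ h1, ?_, ?_⟩
      · rw [hgS _ h1, h2]; ring
      · rw [hconst _ h1, h3]; push_cast; ring
  obtain ⟨h1, h2, h3⟩ := hit p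
  rw [hw.pow_eq_one, one_mul] at h2
  rw [hinj h1 h00 h2] at h3
  have hp0 : (p : ℂ) ≠ 0 := by
    have : p ≠ 0 := by omega
    exact_mod_cast this
  have hD0 : D 0 = 0 := by
    have h4 : (p : ℂ) * D 0 = 0 := by linear_combination -h3
    rcases mul_eq_zero.1 h4 with h | h
    · exact absurd h hp0
    · exact h
  have h5 := hDe 0 h00
  rw [hD0, exp_zero] at h5
  exact hw.ne_one (by omega) h5.symm

/-! ### Möbius maps of the disk -/

/-- `(z + a)/(1 + ā z)`. -/
noncomputable def mo (a z : ℂ) : ℂ := (z + a) / (1 + (starRingEnd ℂ) a * z)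

theorem den_ne {a z : ℂ} (ha : ‖a‖ < 1) (hz : ‖z‖ < 1) : 1 + (starRingEnd ℂ) a * z ≠ 0 := by
  intro h
  have h1 : (starRingEnd ℂ) a * z = -1 := by linear_combination h
  have h2 : ‖(starRingEnd ℂ) a * z‖ = 1 := by rw [h1]; simp
  rw [norm_mul, Complex.norm_conj] at h2
  have h3 : ‖a‖ * ‖z‖ < 1 := by nlinarith [norm_nonneg a, norm_nonneg z]
  linarith

theorem mo_mem {a z : ℂ} (ha : ‖a‖ < 1) (hz : ‖z‖ < 1) : ‖mo a z‖ < 1 := by
  have hd := den_ne ha hz
  have hd' : 0 < ‖1 + (starRingEnd ℂ) a * z‖ := norm_pos_iff.2 hd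
  rw [mo, norm_div, div_lt_one hd']
  have h1 : ‖1 + (starRingEnd ℂ) a * z‖ ^ 2 - ‖z + a‖ ^ 2 = (1 - ‖a‖ ^ 2) * (1 - ‖z‖ ^ 2) := by
    rw [Complex.sq_norm, Complex.sq_norm, Complex.sq_norm, Complex.sq_norm]
    simp only [Complex.normSq_apply, Complex.add_re, Complex.add_im, Complex.mul_re, Complex.mul_im,
      Complex.conj_re, Complex.conj_im, Complex.one_re, Complex.one_im]
    ring
  have h2 : 0 < (1 - ‖a‖ ^ 2) * (1 - ‖z‖ ^ 2) := by
    apply mul_pos <;> nlinarith [norm_nonneg a, norm_nonneg z]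
  exact lt_of_pow_lt_pow_left₀ 2 (norm_nonneg _) (by linarith)

theorem mo_inv {a z : ℂ} (ha : ‖a‖ < 1) (hz : ‖z‖ < 1) : mo (-a) (mo a z) = z := by
  have hd := den_ne ha hz
  have hd2 := den_ne (a := -a) (by rwa [norm_neg]) (mo_mem ha hz)
  have hm : mo a z * (1 + (starRingEnd ℂ) a * z) = z + a := div_mul_cancel₀ _ hd
  rw [mo, div_eq_iff hd2]
  apply mul_right_cancel₀ hd
  rw [map_neg]
  linear_combination (1 + (starRingEnd ℂ) a * z) * hm

theorem mo_diff {a : ℂ} (ha : ‖a‖ < 1) : DifferentiableOn ℂ (mo a) (ball 0 1) := by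
  have h1 : DifferentiableOn ℂ (fun z : ℂ => (z + a) / (1 + (starRingEnd ℂ) a * z)) (ball 0 1) := by
    refine DifferentiableOn.div (by fun_prop) (by fun_prop) ?_
    intro z hz
    exact den_ne ha (by simpa using hz)
  exact h1

/-! ### The normalised map is equivariant -/

theorem equiv {f : ℂ → ℂ} {w : ℂ} (hf : DifferentiableOn ℂ f (ball 0 1))
    (hinj : InjOn f (ball 0 1)) (h0 : f 0 = 0) (hw : ‖w‖ = 1)
    (hrot : ∀ v ∈ f '' ball 0 1, w * v ∈ f '' ball 0 1) :
    ∀ z ∈ ball (0 : ℂ) 1, f (w * z) = w * f z := by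
  have h00 : (0 : ℂ) ∈ ball (0 : ℂ) 1 := by simp
  obtain ⟨S, hS⟩ : ∃ S : ℂ → ℂ, S = fun z => inv f (w * f z) := ⟨_, rfl⟩
  have hSm : ∀ z ∈ ball (0 : ℂ) 1, S z ∈ ball (0 : ℂ) 1 := fun z hz => by
    rw [hS]; exact inv_mem (hrot _ ⟨z, hz, rfl⟩)
  have hfS : ∀ z ∈ ball (0 : ℂ) 1, f (S z) = w * f z := fun z hz => by
    rw [hS]; exact apply_inv (hrot _ ⟨z, hz, rfl⟩)
  have hSd : DifferentiableOn ℂ S (ball 0 1) := by
    rw [hS]
    exact (differentiableOn_inv hf hinj).comp (hf.const_mul w) (fun z hz => hrot _ ⟨z, hz, rfl⟩)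
  have hS0 : S 0 = 0 := by
    refine hinj (hSm 0 h00) h00 ?_
    rw [hfS 0 h00, h0, mul_zero]
  have hd : deriv S 0 = w := by
    have h1 : HasDerivAt S (deriv S 0) 0 := (hSd.differentiableAt (isOpen_ball.mem_nhds h00)).hasDerivAt
    have h2 : HasDerivAt f (deriv f 0) 0 := (hf.differentiableAt (isOpen_ball.mem_nhds h00)).hasDerivAt
    have h2' : HasDerivAt f (deriv f 0) (S 0) := by rw [hS0]; exact h2
    have h3 : HasDerivAt (fun z => f (S z)) (deriv f 0 * deriv S 0) 0 := h2'.comp 0 h1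
    have h4 : HasDerivAt (fun z => f (S z)) (w * deriv f 0) 0 := by
      refine (h2.const_mul w).congr_of_eventuallyEq ?_
      filter_upwards [isOpen_ball.mem_nhds h00] with y hy
      exact hfS y hy
    have h5 := h3.unique h4
    have h6 := deriv_ne_zero hf hinj h00
    exact mul_left_cancel₀ h6 (by linear_combination h5)
  have hmaps : MapsTo S (ball 0 1) (closedBall (S 0) 1) := by
    intro z hz
    rw [hS0]
    exact ball_subset_closedBall (hSm z hz)
  have hds : dslope S 0 0 = w := by rw [dslope_same, hd]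
  have key := Complex.affine_of_mapsTo_ball_of_norm_dslope_eq_div hSd hmaps h00
    (by rw [hds, hw]; norm_num)
  intro z hz
  have h1 := key hz
  rw [hds, hS0] at h1
  have h2 : S z = w * z := by
    rw [h1]; simp [smul_eq_mul, mul_comm]
  rw [← h2]
  exact hfS z hz

/-! ### The packet -/

open Pool.Agent.Helper45.Stek in
theorem t : Pool.Agent.Helper69.ST.S_CA := by
  intro Ω c w p _ hconf hp hw hinv
  obtain ⟨f₀, hf₀, hinj₀, him₀⟩ := hconf
  obtain ⟨g, hgdef⟩ : ∃ g : ℂ → ℂ, g = fun z => f₀ z - c := ⟨_, rfl⟩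
  have hg : DifferentiableOn ℂ g (ball 0 1) := by rw [hgdef]; exact hf₀.sub_const c
  have hginj : InjOn g (ball 0 1) := by
    intro x hx y hy hxy
    rw [hgdef] at hxy
    exact hinj₀ hx hy (sub_left_injective hxy)
  have hgim : g '' ball 0 1 = (fun z => z - c) '' Ω := by
    rw [← him₀, image_image, hgdef]
  have hrot : ∀ v ∈ g '' ball 0 1, w * v ∈ g '' ball 0 1 := by
    rw [hgim]
    rintro _ ⟨y, hy, rfl⟩
    have h1 : rot c w y ∈ Ω := by
      have : rot c w y ∈ rot c w '' Ω := ⟨y, hy, rfl⟩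
      rwa [hinv] at this
    refine ⟨rot c w y, h1, ?_⟩
    change c + w * (y - c) - c = w * (y - c)
    ring
  have hwn : ‖w‖ = 1 := hw.norm'_eq_one (by omega)
  obtain ⟨z₀, hz₀, hz₀g⟩ := zero_mem hg hginj hp hw hrot
  have hz₀' : ‖z₀‖ < 1 := by simpa using hz₀
  obtain ⟨f, hfdef⟩ : ∃ f : ℂ → ℂ, f = fun z => g (mo z₀ z) := ⟨_, rfl⟩
  have hmm : MapsTo (mo z₀) (ball 0 1) (ball 0 1) := by
    intro z hz
    have : ‖z‖ < 1 := by simpa using hz
    simpa using mo_mem hz₀' this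
  have hf : DifferentiableOn ℂ f (ball 0 1) := by
    rw [hfdef]; exact hg.comp (mo_diff hz₀') hmm
  have hinj : InjOn f (ball 0 1) := by
    intro x hx y hy hxy
    rw [hfdef] at hxy
    have h1 := hginj (hmm hx) (hmm hy) hxy
    rw [← mo_inv hz₀' (z := x) (by simpa using hx), h1, mo_inv hz₀' (z := y) (by simpa using hy)]
  have him : f '' ball 0 1 = g '' ball 0 1 := by
    apply Subset.antisymm
    · rintro _ ⟨z, hz, rfl⟩
      rw [hfdef]
      exact ⟨_, hmm hz, rfl⟩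
    · rintro _ ⟨z, hz, rfl⟩
      have hz' : ‖z‖ < 1 := by simpa using hz
      have hn : ‖-z₀‖ < 1 := by rwa [norm_neg]
      refine ⟨mo (-z₀) z, by simpa using mo_mem hn hz', ?_⟩
      have h1 := mo_inv hn hz'
      rw [neg_neg] at h1
      rw [hfdef]
      change g (mo z₀ (mo (-z₀) z)) = g z
      rw [h1]
  have hf0 : f 0 = 0 := by
    rw [hfdef]
    change g (mo z₀ 0) = 0
    have : mo z₀ 0 = z₀ := by simp [mo]
    rw [this, hz₀g]
  refine ⟨f, hf, hinj, him.trans hgim, ?_, fun z hz => deriv_ne_zero hf hinj hz⟩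
  exact equiv hf hinj hf0 hwn (by rw [him]; exact hrot)

end Pool.Agent.Helper72.ST.CA
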