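import Pool.Agent.Helper69.ST.GoalsW

/-! The inequality for the Jacobi form (packet JA2 of helper69's project ST). -/

open MeasureTheory Set Complex Metric
open scoped ContDiff Topology ENNReal

namespace Pool.Agent.Helper72.ST.JA2

open Pool.Agent.Helper69.ST

/-- The abstract inequality for a Jacobi form. -/
theorem jac (k : ℕ) (w : ℝ) (hw0 : 0 ≤ w) (hw1 : w ≤ 1) (D A B : ℤ → ℝ) (K : ℝ)
    (hA : ∀ n, |A n| ≤ K) (hB : ∀ n, |B n| ≤ K) (c : ℤ → ℂ)
    (hs : Summable (fun n : ℤ => ‖c n‖ ^ 2)) (hD : Summable (fun n : ℤ => D n * ‖c n‖ ^ 2))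
    (hedge : ∀ n : ℤ, w * (c n * starRingEnd ℂ (c (n + k))).re ≤
      A n * ‖c n‖ ^ 2 + B (n + k) * ‖c (n + k)‖ ^ 2)
    (hdiag : ∀ n, (A n + B n) * ‖c n‖ ^ 2 ≤ D n * ‖c n‖ ^ 2) :
    w * ∑' n : ℤ, (c n * starRingEnd ℂ (c (n + k))).re ≤ ∑' n : ℤ, D n * ‖c n‖ ^ 2 := by
  have hb : ∀ f : ℤ → ℝ, (∀ n, |f n| ≤ K) → Summable (fun n : ℤ => f n * ‖c n‖ ^ 2) := by
    intro f hf
    apply Summable.of_norm_bounded (g := fun n : ℤ => K * ‖c n‖ ^ 2) (hs.mul_left K)
    intro n
    rw [norm_mul, Real.norm_eq_abs, Real.norm_of_nonneg (by positivity)]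
    exact mul_le_mul_of_nonneg_right (hf n) (by positivity)
  have h1 := hb A hA
  have h2 := hb B hB
  have hsk : Summable (fun n : ℤ => ‖c (n + k)‖ ^ 2) :=
    ((Equiv.addRight (k : ℤ)).summable_iff (f := fun n : ℤ => ‖c n‖ ^ 2)).mpr hs
  have h3 : HasSum (fun n : ℤ => B (n + k) * ‖c (n + k)‖ ^ 2)
      (∑' n : ℤ, B n * ‖c n‖ ^ 2) :=
    ((Equiv.addRight (k : ℤ)).hasSum_iff (f := fun n : ℤ => B n * ‖c n‖ ^ 2)).mpr h2.hasSum
  have hre : Summable (fun n : ℤ => w * (c n * starRingEnd ℂ (c (n + k))).re) := by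
    apply Summable.of_norm_bounded (g := fun n : ℤ => ‖c n‖ ^ 2 + ‖c (n + k)‖ ^ 2) (hs.add hsk)
    intro n
    rw [norm_mul, Real.norm_eq_abs, Real.norm_eq_abs]
    have h5 := Complex.abs_re_le_norm (c n * starRingEnd ℂ (c (n + k)))
    rw [norm_mul, RCLike.norm_conj] at h5
    rw [abs_of_nonneg hw0]
    have h6 : 0 ≤ |(c n * starRingEnd ℂ (c (n + k))).re| := abs_nonneg _
    have h7 : w * |(c n * starRingEnd ℂ (c (n + k))).re| ≤
        1 * |(c n * starRingEnd ℂ (c (n + k))).re| := mul_le_mul_of_nonneg_right hw1 h6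
    nlinarith [sq_nonneg (‖c n‖ - ‖c (n + k)‖), sq_nonneg (‖c n‖ + ‖c (n + k)‖)]
  rw [← tsum_mul_left]
  calc ∑' n : ℤ, w * (c n * starRingEnd ℂ (c (n + k))).re
      ≤ ∑' n : ℤ, (A n * ‖c n‖ ^ 2 + B (n + k) * ‖c (n + k)‖ ^ 2) :=
        hre.tsum_le_tsum hedge (h1.add h3.summable)
    _ = ∑' n : ℤ, A n * ‖c n‖ ^ 2 + ∑' n : ℤ, B n * ‖c n‖ ^ 2 := by
        rw [h1.tsum_add h3.summable, h3.tsum_eq]
    _ = ∑' n : ℤ, (A n + B n) * ‖c n‖ ^ 2 := by
        rw [← h1.tsum_add h2]
        congr 1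
        ext n
        ring
    _ ≤ ∑' n : ℤ, D n * ‖c n‖ ^ 2 := by
        apply Summable.tsum_le_tsum hdiag _ hD
        have := h1.add h2
        convert this using 1
        ext n
        ring

/-- The elementary inequality for an edge. -/
theorem edge (x y : ℂ) (α β : ℝ) (hα : 0 ≤ α) (hβ : 0 ≤ β) (h : 441 / 62500 ≤ α * β) :
    21 / 125 * (x * starRingEnd ℂ y).re ≤ α * ‖x‖ ^ 2 + β * ‖y‖ ^ 2 := by
  have h1 : (x * starRingEnd ℂ y).re ≤ ‖x‖ * ‖y‖ := by
    refine (Complex.re_le_norm _).trans ?_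
    rw [norm_mul, RCLike.norm_conj]
  have h2 : 21 / 125 * (‖x‖ * ‖y‖) ≤ α * ‖x‖ ^ 2 + β * ‖y‖ ^ 2 := by
    have hx := norm_nonneg x
    have hy := norm_nonneg y
    set X := ‖x‖
    set Y := ‖y‖
    have h3 : (21 / 125 * (X * Y)) ^ 2 ≤ (α * X ^ 2 + β * Y ^ 2) ^ 2 := by
      have h4 : 0 ≤ (α * X ^ 2 - β * Y ^ 2) ^ 2 := sq_nonneg _
      have h5 : 441 / 62500 * (X * Y) ^ 2 ≤ α * β * (X * Y) ^ 2 :=
        mul_le_mul_of_nonneg_right h (sq_nonneg _)
      nlinarith
    exact le_of_sq_le_sq h3 (by positivity)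
  linarith

/-- The critical edge. -/
theorem edge_crit (x y : ℂ) (t : ℝ) (h : y = -((t : ℂ)) * x) :
    (x * starRingEnd ℂ y).re = -(t * ‖x‖ ^ 2) ∧ ‖y‖ ^ 2 = t ^ 2 * ‖x‖ ^ 2 := by
  subst h
  constructor
  · rw [map_mul, map_neg, Complex.conj_ofReal]
    have : x * (-(t : ℂ) * starRingEnd ℂ x) = -(t : ℂ) * (x * starRingEnd ℂ x) := by ring
    rw [this, Complex.mul_conj, Complex.normSq_eq_norm_sq]
    have h2 : -(t : ℂ) * ((‖x‖ ^ 2 : ℝ) : ℂ) = ((-(t * ‖x‖ ^ 2) : ℝ) : ℂ) := by
      push_cast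
      ring
    rw [h2, Complex.ofReal_re]
  · rw [norm_mul, norm_neg, mul_pow, Complex.norm_real, Real.norm_eq_abs, sq_abs]

/-! ### The weights -/

noncomputable def Q (y : ℝ) : ℝ := 441 / 62500 / (1717 / 5000 + y)

noncomputable def R (y : ℝ) : ℝ := y - 2863 / 5000 - Q y

noncomputable def P (y : ℝ) : ℝ := -(42 / 125 * y) - 4 * y ^ 2 * R y

theorem Q_mul {y : ℝ} (hy : 0 ≤ y) : Q y * (1717 / 5000 + y) = 441 / 62500 := by
  unfold Q
  exact div_mul_cancel₀ _ (by positivity)

theorem Q_nonneg {y : ℝ} (hy : 0 ≤ y) : 0 ≤ Q y := by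
  unfold Q
  positivity

theorem Q_le {y : ℝ} (hy : 0 ≤ y) : Q y ≤ 1 / 48 := by
  have h1 := Q_mul hy
  have h2 := Q_nonneg hy
  nlinarith [mul_nonneg h2 hy]

theorem R_bd {y : ℝ} (hy : 0 ≤ y) (hy2 : y ≤ 1 / 2) : -(3 / 5) ≤ R y ∧ R y ≤ 0 := by
  have h1 := Q_nonneg hy
  have h2 := Q_le hy
  unfold R
  constructor <;> linarith

theorem P_bd {y : ℝ} (hy : 0 ≤ y) (hy2 : y ≤ 1 / 2) : |P y| ≤ 1 := by
  obtain ⟨h1, h2⟩ := R_bd hy hy2
  have h3 : 4 * y ^ 2 ≤ 1 := by nlinarith
  have h4 : 0 ≤ 4 * y ^ 2 := by positivity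
  have h5 : 4 * y ^ 2 * R y ≤ 0 := mul_nonpos_of_nonneg_of_nonpos h4 h2
  have h6 : -(3 / 5) ≤ 4 * y ^ 2 * R y := by nlinarith
  unfold P
  rw [abs_le]
  constructor <;> linarith

theorem main_ineq {y : ℝ} (hy : 0 ≤ y) (hy2 : y ≤ 1 / 2) : P y + 21 / 2500 ≤ 1 - y - 2863 / 5000 := by
  have h1 : 4 * y ^ 2 * Q y ≤ 21 / 2500 := by
    have h2 := Q_mul hy
    have h3 : 0 < 1717 / 5000 + y := by positivity
    have h4 : 4 * y ^ 2 * Q y * (1717 / 5000 + y) ≤ 21 / 2500 * (1717 / 5000 + y) := by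
      have h5 : 4 * y ^ 2 * Q y * (1717 / 5000 + y) = 4 * y ^ 2 * (441 / 62500) := by
        rw [mul_assoc, h2]
      rw [h5]
      nlinarith [mul_nonneg hy (by linarith : 0 ≤ 1 / 2 - y)]
    exact le_of_mul_le_mul_right h4 h3
  have h6 : 0 ≤ (y - 4938 / 10000) ^ 2 * (4 * y + 166 / 100) := by positivity
  have h7 : P y = -(42 / 125 * y) - 4 * y ^ 2 * (y - 2863 / 5000) + 4 * y ^ 2 * Q y := by
    unfold P R
    ring
  rw [h7]
  nlinarith

/-- The weight at the left end of an edge. -/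
noncomputable def A (k : ℕ) (n : ℤ) : ℝ :=
  if n < -(2 * k) then 21 / 250
  else if n < -k then -((n : ℝ) / k) - 3283 / 5000
  else if 2 * n ≤ -k then P (1 + (n : ℝ) / k)
  else if n < 0 then R (-((n : ℝ) / k))
  else if 2 * n ≤ k then Q ((n : ℝ) / k)
  else if n < k then 21 / 2500
  else 21 / 250

/-- The weight at the right end of an edge. -/
noncomputable def B (k : ℕ) (n : ℤ) : ℝ :=
  if n < -k then 21 / 250
  else if 2 * n ≤ -k then 21 / 2500
  else if n < 0 then Q (-((n : ℝ) / k))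
  else if 2 * n ≤ k then R ((n : ℝ) / k)
  else if n < k then P (1 - (n : ℝ) / k)
  else if n < 2 * k then (n : ℝ) / k - 3283 / 5000
  else 21 / 250

section

variable {k : ℕ} (hk : 2 ≤ k) (n : ℤ)

include hk

theorem dle {a b : ℤ} (h : a * k ≤ b * n) : (a : ℝ) ≤ b * ((n : ℝ) / k) := by
  have hk0 : (0 : ℝ) < k := by exact_mod_cast (by omega : 0 < k)
  rw [← mul_div_assoc, le_div_iff₀ hk0]
  exact_mod_cast h

theorem dge {a b : ℤ} (h : b * n ≤ a * k) : b * ((n : ℝ) / k) ≤ a := by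
  have hk0 : (0 : ℝ) < k := by exact_mod_cast (by omega : 0 < k)
  rw [← mul_div_assoc, div_le_iff₀ hk0]
  exact_mod_cast h

theorem A_bd : |A k n| ≤ 3 := by
  unfold A
  split_ifs with h1 h2 h3 h4 h5 h6
  · norm_num
  · have e1 := dle hk n (a := -2) (b := 1) (by omega)
    have e2 := dge hk n (a := -1) (b := 1) (by omega)
    push_cast at e1 e2
    rw [abs_le]
    constructor <;> linarith
  · have e1 := dle hk n (a := -1) (b := 1) (by omega)
    have e2 := dge hk n (a := -1) (b := 2) (by omega)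
    push_cast at e1 e2
    exact (P_bd (by linarith) (by linarith)).trans (by norm_num)
  · have e1 := dle hk n (a := -1) (b := 2) (by omega)
    have e2 := dge hk n (a := 0) (b := 1) (by omega)
    push_cast at e1 e2
    obtain ⟨g1, g2⟩ := R_bd (y := -((n : ℝ) / k)) (by linarith) (by linarith)
    rw [abs_le]
    constructor <;> linarith
  · have e1 := dle hk n (a := 0) (b := 1) (by omega)
    push_cast at e1
    have g1 := Q_nonneg (y := (n : ℝ) / k) (by linarith)
    have g2 := Q_le (y := (n : ℝ) / k) (by linarith)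
    rw [abs_le]
    constructor <;> linarith
  · norm_num
  · norm_num

theorem B_bd : |B k n| ≤ 3 := by
  unfold B
  split_ifs with h1 h2 h3 h4 h5 h6
  · norm_num
  · norm_num
  · have e2 := dge hk n (a := 0) (b := 1) (by omega)
    push_cast at e2
    have g1 := Q_nonneg (y := -((n : ℝ) / k)) (by linarith)
    have g2 := Q_le (y := -((n : ℝ) / k)) (by linarith)
    rw [abs_le]
    constructor <;> linarith
  · have e1 := dle hk n (a := 0) (b := 1) (by omega)
    have e2 := dge hk n (a := 1) (b := 2) (by omega)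
    push_cast at e1 e2
    obtain ⟨g1, g2⟩ := R_bd (y := (n : ℝ) / k) (by linarith) (by linarith)
    rw [abs_le]
    constructor <;> linarith
  · have e1 := dle hk n (a := 1) (b := 2) (by omega)
    have e2 := dge hk n (a := 1) (b := 1) (by omega)
    push_cast at e1 e2
    exact (P_bd (by linarith) (by linarith)).trans (by norm_num)
  · have e1 := dle hk n (a := 1) (b := 1) (by omega)
    have e2 := dge hk n (a := 2) (b := 1) (by omega)
    push_cast at e1 e2
    rw [abs_le]
    constructor <;> linarith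
  · norm_num

theorem diag : A k n + B k n ≤ |(n : ℝ)| / k - 2863 / 5000 := by
  have hk0 : (0 : ℝ) < k := by exact_mod_cast (by omega : 0 < k)
  have hpos : ∀ h : 0 ≤ n, |(n : ℝ)| / k = (n : ℝ) / k := fun h => by
    rw [abs_of_nonneg (by exact_mod_cast h)]
  have hneg : ∀ h : n < 0, |(n : ℝ)| / k = -((n : ℝ) / k) := fun h => by
    rw [abs_of_neg (by exact_mod_cast h), neg_div]
  by_cases c1 : n < -(2 * k)
  · have v1 : A k n = 21 / 250 := by unfold A; split_ifs <;> first | omega | rfl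
    have v2 : B k n = 21 / 250 := by unfold B; split_ifs <;> first | omega | rfl
    have e2 := dge hk n (a := -2) (b := 1) (by omega)
    push_cast at e2
    rw [v1, v2, hneg (by omega)]
    linarith
  by_cases c2 : n < -k
  · have v1 : A k n = -((n : ℝ) / k) - 3283 / 5000 := by
      unfold A; split_ifs <;> first | omega | rfl
    have v2 : B k n = 21 / 250 := by unfold B; split_ifs <;> first | omega | rfl
    rw [v1, v2, hneg (by omega)]
    linarith
  by_cases c3 : 2 * n ≤ -k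
  · have v1 : A k n = P (1 + (n : ℝ) / k) := by
      unfold A; split_ifs <;> first | omega | rfl
    have v2 : B k n = 21 / 2500 := by unfold B; split_ifs <;> first | omega | rfl
    have e1 := dle hk n (a := -1) (b := 1) (by omega)
    have e2 := dge hk n (a := -1) (b := 2) (by omega)
    push_cast at e1 e2
    have g := main_ineq (y := 1 + (n : ℝ) / k) (by linarith) (by linarith)
    rw [v1, v2, hneg (by omega)]
    linarith
  by_cases c4 : n < 0
  · have v1 : A k n = R (-((n : ℝ) / k)) := by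
      unfold A; split_ifs <;> first | omega | rfl
    have v2 : B k n = Q (-((n : ℝ) / k)) := by unfold B; split_ifs <;> first | omega | rfl
    rw [v1, v2, hneg (by omega), R]
    linarith
  by_cases c5 : 2 * n ≤ k
  · have v1 : A k n = Q ((n : ℝ) / k) := by
      unfold A; split_ifs <;> first | omega | rfl
    have v2 : B k n = R ((n : ℝ) / k) := by unfold B; split_ifs <;> first | omega | rfl
    rw [v1, v2, hpos (by omega), R]
    linarith
  by_cases c6 : n < k
  · have v1 : A k n = 21 / 2500 := by unfold A; split_ifs <;> first | omega | rfl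
    have v2 : B k n = P (1 - (n : ℝ) / k) := by unfold B; split_ifs <;> first | omega | rfl
    have e1 := dle hk n (a := 1) (b := 2) (by omega)
    have e2 := dge hk n (a := 1) (b := 1) (by omega)
    push_cast at e1 e2
    have g := main_ineq (y := 1 - (n : ℝ) / k) (by linarith) (by linarith)
    rw [v1, v2, hpos (by omega)]
    linarith
  by_cases c7 : n < 2 * k
  · have v1 : A k n = 21 / 250 := by unfold A; split_ifs <;> first | omega | rfl
    have v2 : B k n = (n : ℝ) / k - 3283 / 5000 := by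
      unfold B; split_ifs <;> first | omega | rfl
    rw [v1, v2, hpos (by omega)]
    linarith
  · have v1 : A k n = 21 / 250 := by unfold A; split_ifs <;> first | omega | rfl
    have v2 : B k n = 21 / 250 := by unfold B; split_ifs <;> first | omega | rfl
    have e1 := dle hk n (a := 2) (b := 1) (by omega)
    push_cast at e1
    rw [v1, v2, hpos (by omega)]
    linarith

theorem edges (c : ℤ → ℂ) (hc : Cond2 k c) : 21 / 125 * (c n * starRingEnd ℂ (c (n + k))).re ≤
    A k n * ‖c n‖ ^ 2 + B k (n + k) * ‖c (n + k)‖ ^ 2 := by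
  have hk0 : (0 : ℝ) < k := by exact_mod_cast (by omega : 0 < k)
  have hadd : ((n + k : ℤ) : ℝ) / k = (n : ℝ) / k + 1 := by
    push_cast
    field_simp
  by_cases c1 : n < -(2 * k)
  · have v1 : A k n = 21 / 250 := by unfold A; split_ifs <;> first | omega | rfl
    have v2 : B k (n + k) = 21 / 250 := by unfold B; split_ifs <;> first | omega | rfl
    rw [v1, v2]
    exact edge _ _ _ _ (by norm_num) (by norm_num) (by norm_num)
  by_cases c2 : n < -k
  · have v1 : A k n = -((n : ℝ) / k) - 3283 / 5000 := by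
      unfold A; split_ifs <;> first | omega | rfl
    have e2 := dge hk n (a := -1) (b := 1) (by omega)
    push_cast at e2
    by_cases c2' : 2 * (n + k) ≤ -k
    · have v2 : B k (n + k) = 21 / 2500 := by unfold B; split_ifs <;> first | omega | rfl
      have e3 := dge hk n (a := -3) (b := 2) (by omega)
      push_cast at e3
      rw [v1, v2]
      exact edge _ _ _ _ (by linarith) (by norm_num) (by linarith)
    · have v2 : B k (n + k) = Q (-((n + k : ℤ) / k : ℝ)) := by
        unfold B; split_ifs <;> first | omega | rfl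
      rw [hadd] at v2
      have g := Q_mul (y := -((n : ℝ) / k + 1)) (by linarith)
      have g2 := Q_nonneg (y := -((n : ℝ) / k + 1)) (by linarith)
      rw [v1, v2]
      refine edge _ _ _ _ (by linarith) g2 (le_of_eq ?_)
      rw [← g]
      ring
  by_cases c3 : 2 * n ≤ -k
  · have v1 : A k n = P (1 + (n : ℝ) / k) := by
      unfold A; split_ifs <;> first | omega | rfl
    have v2 : B k (n + k) = R ((n + k : ℤ) / k : ℝ) := by
      unfold B; split_ifs <;> first | omega | rfl
    rw [hadd] at v2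
    have hcc := hc (n + k) (by omega) (by omega)
    rw [if_pos (by omega : 0 ≤ n + (k : ℤ)), add_sub_cancel_right] at hcc
    have e5 := edge_crit (c n) (c (n + k)) (2 * ((n : ℝ) / k + 1)) (by
      rw [hcc]
      congr 2
      push_cast
      have : (k : ℂ) ≠ 0 := by exact_mod_cast (by omega : k ≠ 0)
      field_simp)
    rw [v1, v2, e5.1, e5.2]
    apply le_of_eq
    rw [P, add_comm (1 : ℝ) ((n : ℝ) / k)]
    ring
  by_cases c4 : n < 0
  · have v1 : A k n = R (-((n : ℝ) / k)) := by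
      unfold A; split_ifs <;> first | omega | rfl
    have v2 : B k (n + k) = P (1 - (n + k : ℤ) / k : ℝ) := by
      unfold B; split_ifs <;> first | omega | rfl
    rw [hadd] at v2
    have hcc := hc n (by omega) (by omega)
    rw [if_neg (by omega : ¬ 0 ≤ n)] at hcc
    have e5 := edge_crit (c (n + k)) (c n) (2 * (-((n : ℝ) / k))) (by
      rw [hcc]
      congr 2
      push_cast
      ring)
    have e8 : (c n * starRingEnd ℂ (c (n + k))).re = (c (n + k) * starRingEnd ℂ (c n)).re := by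
      rw [← Complex.conj_re (c n * starRingEnd ℂ (c (n + k))), map_mul,
        Complex.conj_conj, mul_comm]
    rw [v1, v2, e8, e5.1, e5.2]
    apply le_of_eq
    rw [P, show (1 : ℝ) - ((n : ℝ) / k + 1) = -((n : ℝ) / k) by ring]
    ring
  by_cases c5 : 2 * n ≤ k
  · have v1 : A k n = Q ((n : ℝ) / k) := by
      unfold A; split_ifs <;> first | omega | rfl
    have v2 : B k (n + k) = (n + k : ℤ) / k - 3283 / 5000 := by
      unfold B; split_ifs <;> first | omega | rfl
    rw [hadd] at v2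
    have e1 := dle hk n (a := 0) (b := 1) (by omega)
    push_cast at e1
    have g := Q_mul (y := (n : ℝ) / k) (by linarith)
    have g2 := Q_nonneg (y := (n : ℝ) / k) (by linarith)
    rw [v1, v2]
    refine edge _ _ _ _ g2 (by linarith) (le_of_eq ?_)
    rw [← g]
    ring
  by_cases c6 : n < k
  · have v1 : A k n = 21 / 2500 := by unfold A; split_ifs <;> first | omega | rfl
    have v2 : B k (n + k) = (n + k : ℤ) / k - 3283 / 5000 := by
      unfold B; split_ifs <;> first | omega | rfl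
    rw [hadd] at v2
    have e1 := dle hk n (a := 1) (b := 2) (by omega)
    push_cast at e1
    rw [v1, v2]
    exact edge _ _ _ _ (by norm_num) (by linarith) (by linarith)
  · have v1 : A k n = 21 / 250 := by unfold A; split_ifs <;> first | omega | rfl
    have v2 : B k (n + k) = 21 / 250 := by unfold B; split_ifs <;> first | omega | rfl
    rw [v1, v2]
    exact edge _ _ _ _ (by norm_num) (by norm_num) (by norm_num)

end

theorem t : S_JA2 := by
  intro k hk c hs1 hs hcond
  have hk0 : (0 : ℝ) < k := by exact_mod_cast (by omega : 0 < k)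
  have e : ∀ n : ℤ, (|(n : ℝ)| / k - 2863 / 5000) * ‖c n‖ ^ 2 =
      1 / k * (|(n : ℝ)| * ‖c n‖ ^ 2) - 2863 / 5000 * ‖c n‖ ^ 2 := by
    intro n
    ring
  have hD : Summable (fun n : ℤ => (|(n : ℝ)| / k - 2863 / 5000) * ‖c n‖ ^ 2) := by
    simp only [e]
    exact (hs1.mul_left _).sub (hs.mul_left _)
  have hsumD : ∑' n : ℤ, (|(n : ℝ)| / k - 2863 / 5000) * ‖c n‖ ^ 2 =
      1 / k * ∑' n : ℤ, |(n : ℝ)| * ‖c n‖ ^ 2 - 2863 / 5000 * ∑' n : ℤ, ‖c n‖ ^ 2 := by
    simp only [e]
    rw [(hs1.mul_left _).tsum_sub (hs.mul_left _), tsum_mul_left, tsum_mul_left]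
  have key := jac k (21 / 125) (by norm_num) (by norm_num)
    (fun n => |(n : ℝ)| / k - 2863 / 5000) (A k) (B k) 3 (A_bd hk) (B_bd hk) c hs hD
    (fun n => edges hk n c hcond)
    (fun n => mul_le_mul_of_nonneg_right (diag hk n) (by positivity))
  rw [hsumD] at key
  have key2 := mul_le_mul_of_nonneg_left key hk0.le
  have e2 : (k : ℝ) * (1 / k * ∑' n : ℤ, |(n : ℝ)| * ‖c n‖ ^ 2 -
      2863 / 5000 * ∑' n : ℤ, ‖c n‖ ^ 2) = ∑' n : ℤ, |(n : ℝ)| * ‖c n‖ ^ 2 -
      k * (2863 / 5000) * ∑' n : ℤ, ‖c n‖ ^ 2 := by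
    field_simp
  rw [e2] at key2
  linarith

end Pool.Agent.Helper72.ST.JA2
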